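import Pool.Agent.H7.ME.Stmts
import Pool.Agent.H29.HZ.RFG

/-! Board me17 (MP_fd41b2_co), row RFGW: copy of the row RFGW of the board ld16 (helper47) with `PrW` of `Pool.ME7`. -/

set_option autoImplicit false

open Finset

namespace Pool.ME7

open Pool.Agent.H23.KT Pool.Agent.H46.KW Pool.KQ Pool.GT7 Pool.GU7 Pool.HZ7 Pool.IA7

theorem w_rfgc_card (p r a c : ℕ) (hr : r ≤ p + 1) (hc : c < p + 4) :
    (rfgc p r a c).card = a + if c < r + 1 then 1 else 0 := by
  have h1 : (rfgc p r a c).map Fin.valEmbedding =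
      (range ((p + 4) * a + (r + 1))).filter (fun w => w % (p + 4) = c) := by
    ext w
    rw [mem_map, mem_filter, mem_range]
    constructor
    · rintro ⟨u, hu, rfl⟩
      unfold rfgc at hu
      rw [mem_filter] at hu
      exact ⟨u.2, hu.2⟩
    · rintro ⟨h2, h3⟩
      refine ⟨⟨w, h2⟩, ?_, rfl⟩
      unfold rfgc
      rw [mem_filter]
      exact ⟨mem_univ _, h3⟩
  rw [← card_map Fin.valEmbedding, h1]
  have h2 := Nat.count_modEq_card ((p + 4) * a + (r + 1)) (show 0 < p + 4 by omega) c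
  rw [Nat.count_eq_card_filter_range, Nat.mul_add_div (show 0 < p + 4 by omega), Nat.mul_add_mod,
    Nat.div_eq_of_lt (show r + 1 < p + 4 by omega), Nat.mod_eq_of_lt (show r + 1 < p + 4 by omega),
    Nat.mod_eq_of_lt hc, add_zero] at h2
  rw [← h2]
  congr 1
  ext w
  rw [mem_filter, mem_filter]
  unfold Nat.ModEq
  rw [Nat.mod_eq_of_lt hc]

theorem w_rfgc_compl (p r a c : ℕ) (hr : r ≤ p + 1) (hc : c < p + 4) :
    ((rfgc p r a c)ᶜ).card + (if c < r + 1 then 1 else 0) = (p + 3) * a + (r + 1) := by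
  have h1 := card_compl_add_card (rfgc p r a c)
  rw [w_rfgc_card p r a c hr hc, Fintype.card_fin] at h1
  have h2 : (p + 4) * a = (p + 3) * a + a := by ring
  omega

theorem w_rfg_deg {p r q a : ℕ} (h : r + q = p + 3) (hq : 2 ≤ q) (hr : r ≤ p + 1)
    (v : Fin ((p + 4) * a + (r + 1))) :
    ((rfgR p r q a).neighborSet v).ncard ≤ (p + 3) * a + r := by
  have hm := Nat.mod_lt v.val (show 0 < p + 4 by omega)
  have h1 := w_rfgc_compl p r a (v.val % (p + 4)) hr hm
  by_cases hs : v.val % (p + 4) < r + 1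
  · rw [if_pos hs] at h1
    have h2 : (rfgR p r q a).neighborSet v ⊆
        (((rfgc p r a (v.val % (p + 4)))ᶜ : Finset _) : Set (Fin ((p + 4) * a + (r + 1)))) := by
      intro w hw
      rw [mem_coe, mem_compl]
      unfold rfgc
      rw [mem_filter]
      rintro ⟨-, h3⟩
      exact hw.1 h3.symm
    have h3 := Set.ncard_le_ncard h2 (Set.toFinite _)
    rw [Set.ncard_coe_finset] at h3
    omega
  · rw [if_neg hs] at h1
    obtain ⟨t, ht, htv⟩ := rfgx_surj h hq v.2 (by omega)
    obtain ⟨w0, hw1, hw2⟩ : ∃ w0 : Fin ((p + 4) * a + (r + 1)),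
        w0.val % (p + 4) ≠ v.val % (p + 4) ∧ ¬ (rfgR p r q a).Adj v w0 := by
      rcases Nat.even_or_odd' t with ⟨i, rfl | rfl⟩
      · refine ⟨⟨rfgg p r q a i, rfgg_lt h hq i⟩, ?_, ?_⟩
        · rw [← htv]
          exact (rfg_fg h hq i).symm
        · intro hcon
          exact (hcon.2 i ht).1 ⟨htv.symm, rfl⟩
      · refine ⟨⟨rfgf p r q i, rfgf_lt h hq (by omega)⟩, ?_, ?_⟩
        · rw [← htv]
          exact rfgx_ne h hq _
        · intro hcon
          refine (hcon.2 i (by omega)).2 ⟨rfl, ?_⟩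
          unfold rfgg
          rw [if_pos ht]
          exact htv.symm
    have h2 : (rfgR p r q a).neighborSet v ⊆
        ((((rfgc p r a (v.val % (p + 4)))ᶜ).erase w0 : Finset _) :
          Set (Fin ((p + 4) * a + (r + 1)))) := by
      intro w hw
      rw [mem_coe, mem_erase, mem_compl]
      refine ⟨?_, ?_⟩
      · rintro rfl
        exact hw2 hw
      · unfold rfgc
        rw [mem_filter]
        rintro ⟨-, h3⟩
        exact hw.1 h3.symm
    have h3 := Set.ncard_le_ncard h2 (Set.toFinite _)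
    rw [Set.ncard_coe_finset, card_erase_of_mem] at h3
    · omega
    · rw [mem_compl]
      unfold rfgc
      rw [mem_filter]
      rintro ⟨-, h4⟩
      exact hw1 h4

theorem w_rfg_pair {p r a : ℕ} (hr : r ≤ p + 1) (x y : Fin ((p + 4) * a + (r + 1)))
    (hxy : x.val % (p + 4) ≠ y.val % (p + 4)) :
    {s : Finset (Fin ((p + 4) * a + (r + 1))) |
      (SimpleGraph.turanGraph ((p + 4) * a + (r + 1)) (p + 4)).IsNClique 3 s ∧
        x ∈ s ∧ y ∈ s}.ncard + (if x.val % (p + 4) < r + 1 then 1 else 0) +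
      (if y.val % (p + 4) < r + 1 then 1 else 0) ≤ (p + 2) * a + (r + 1) := by
  classical
  have hx := Nat.mod_lt x.val (show 0 < p + 4 by omega)
  have hy := Nat.mod_lt y.val (show 0 < p + 4 by omega)
  have hdis : Disjoint (rfgc p r a (x.val % (p + 4))) (rfgc p r a (y.val % (p + 4))) := by
    rw [Finset.disjoint_left]
    intro w h1 h2
    unfold rfgc at h1 h2
    rw [mem_filter] at h1 h2
    exact hxy (h1.2.symm.trans h2.2)
  have h1 := card_compl_add_card (rfgc p r a (x.val % (p + 4)) ∪ rfgc p r a (y.val % (p + 4)))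
  rw [card_union_of_disjoint hdis, w_rfgc_card p r a _ hr hx, w_rfgc_card p r a _ hr hy,
    Fintype.card_fin] at h1
  have h2 : {s : Finset (Fin ((p + 4) * a + (r + 1))) |
      (SimpleGraph.turanGraph ((p + 4) * a + (r + 1)) (p + 4)).IsNClique 3 s ∧
        x ∈ s ∧ y ∈ s} ⊆ (((rfgc p r a (x.val % (p + 4)) ∪ rfgc p r a (y.val % (p + 4)))ᶜ).image
        (fun w => ({x, y, w} : Finset _)) : Finset (Finset (Fin ((p + 4) * a + (r + 1))))) := by
    rintro s ⟨hs, hxs, hys⟩
    rw [mem_coe, mem_image]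
    rw [SimpleGraph.isNClique_iff] at hs
    have hne : x ≠ y := by
      rintro rfl
      exact hxy rfl
    have h3 : ({x, y} : Finset _) ⊆ s := by
      intro w hw
      rw [mem_insert, mem_singleton] at hw
      rcases hw with rfl | rfl
      · exact hxs
      · exact hys
    have h4 : (s \ {x, y}).card = 1 := by
      have h5 := card_sdiff_add_card_eq_card h3
      rw [card_pair hne, hs.2] at h5
      omega
    obtain ⟨w, hw⟩ := card_eq_one.mp h4
    have hws : w ∈ s \ {x, y} := by rw [hw]; exact mem_singleton_self _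
    rw [mem_sdiff, mem_insert, mem_singleton, not_or] at hws
    refine ⟨w, ?_, ?_⟩
    · rw [mem_compl, mem_union]
      unfold rfgc
      rw [mem_filter, mem_filter]
      rintro (⟨-, h5⟩ | ⟨-, h5⟩)
      · exact hs.1 (mem_coe.mpr hws.1) (mem_coe.mpr hxs) hws.2.1 h5
      · exact hs.1 (mem_coe.mpr hws.1) (mem_coe.mpr hys) hws.2.2 h5
    · rw [← sdiff_union_of_subset h3, hw]
      ext z
      simp only [mem_insert, mem_singleton, mem_union]
      tauto
  have h3 := Set.ncard_le_ncard h2 (Set.toFinite _)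
  rw [Set.ncard_coe_finset] at h3
  have h4 : (((rfgc p r a (x.val % (p + 4)) ∪ rfgc p r a (y.val % (p + 4)))ᶜ).image
        (fun w => ({x, y, w} : Finset _))).card ≤
      ((rfgc p r a (x.val % (p + 4)) ∪ rfgc p r a (y.val % (p + 4)))ᶜ).card := card_image_le
  have h5 : (p + 4) * a = (p + 2) * a + a + a := by ring
  omega

theorem w_rfg_count {p r q a : ℕ} (h : r + q = p + 3) (hq : 2 ≤ q) (hr : r ≤ p + 1) :
    {s : Finset (Fin ((p + 4) * a + (r + 1))) |
      (SimpleGraph.turanGraph ((p + 4) * a + (r + 1)) (p + 4)).IsNClique 3 s}.ncard ≤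
    {s : Finset (Fin ((p + 4) * a + (r + 1))) | (rfgR p r q a).IsNClique 3 s}.ncard +
      ∑ i ∈ range ((q * a + 1) / 2), (if 2 * i + 1 < q * a then (p + 2) * a + (r + 1) else
        (p + 2) * a + r) := by
  classical
  obtain ⟨B, hB⟩ : ∃ B : ℕ → Finset (Finset (Fin ((p + 4) * a + (r + 1)))), ∀ i, B i =
      univ.filter (fun s => (SimpleGraph.turanGraph ((p + 4) * a + (r + 1)) (p + 4)).IsNClique 3 s ∧
        ∃ x ∈ s, ∃ y ∈ s, x.val = rfgf p r q i ∧ y.val = rfgg p r q a i) := ⟨_, fun _ => rfl⟩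
  have hBc : ∀ i ∈ range ((q * a + 1) / 2), (B i).card ≤
      if 2 * i + 1 < q * a then (p + 2) * a + (r + 1) else (p + 2) * a + r := by
    intro i hi
    rw [mem_range] at hi
    have hi2 : 2 * i < q * a := by omega
    have h1 := w_rfg_pair hr (⟨rfgf p r q i, rfgf_lt h hq hi2⟩ : Fin ((p + 4) * a + (r + 1)))
      ⟨rfgg p r q a i, rfgg_lt h hq i⟩ (rfg_fg h hq i)
    have h2 : B i ⊆ univ.filter (fun s => (SimpleGraph.turanGraph ((p + 4) * a + (r + 1))
        (p + 4)).IsNClique 3 s ∧ (⟨rfgf p r q i, rfgf_lt h hq hi2⟩ : Fin _) ∈ s ∧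
        (⟨rfgg p r q a i, rfgg_lt h hq i⟩ : Fin _) ∈ s) := by
      intro s hs
      rw [hB, mem_filter] at hs
      rw [mem_filter]
      obtain ⟨-, hs1, x, hx, y, hy, hxf, hyg⟩ := hs
      refine ⟨mem_univ _, hs1, ?_, ?_⟩
      · rwa [show (⟨rfgf p r q i, rfgf_lt h hq hi2⟩ : Fin _) = x from Fin.ext hxf.symm]
      · rwa [show (⟨rfgg p r q a i, rfgg_lt h hq i⟩ : Fin _) = y from Fin.ext hyg.symm]
    have h3 := card_le_card h2
    rw [rfg_ncard] at h1
    have h4 : ¬ rfgf p r q i % (p + 4) < r + 1 := by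
      unfold rfgf
      rw [rfgx_mod h hq]
      omega
    rw [if_neg h4] at h1
    by_cases h5 : 2 * i + 1 < q * a
    · rw [if_pos h5]
      omega
    · rw [if_neg h5]
      have h6 : rfgg p r q a i % (p + 4) < r + 1 := by
        unfold rfgg
        rw [if_neg h5, Nat.zero_mod]
        omega
      rw [if_pos h6] at h1
      omega
  rw [rfg_ncard, rfg_ncard]
  have hsub : univ.filter (fun s : Finset (Fin ((p + 4) * a + (r + 1))) =>
      (SimpleGraph.turanGraph ((p + 4) * a + (r + 1)) (p + 4)).IsNClique 3 s) ⊆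
      univ.filter (fun s : Finset (Fin ((p + 4) * a + (r + 1))) =>
        (rfgR p r q a).IsNClique 3 s) ∪ (range ((q * a + 1) / 2)).biUnion B := by
    intro s hs
    rw [mem_filter] at hs
    have hs2 := hs.2
    rw [SimpleGraph.isNClique_iff] at hs2
    rw [mem_union, mem_filter, mem_biUnion]
    by_cases hc : (rfgR p r q a).IsClique (s : Set _)
    · left
      refine ⟨mem_univ _, ?_⟩
      rw [SimpleGraph.isNClique_iff]
      exact ⟨hc, hs2.2⟩
    · right
      have h1 : ∃ u ∈ s, ∃ v ∈ s, u ≠ v ∧ ¬ (rfgR p r q a).Adj u v := by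
        by_contra hcon
        push Not at hcon
        exact hc (fun u hu v hv hne => hcon u hu v hv hne)
      obtain ⟨u, hu, v, hv, hne, hna⟩ := h1
      have hT : u.val % (p + 4) ≠ v.val % (p + 4) :=
        hs2.1 (mem_coe.mpr hu) (mem_coe.mpr hv) hne
      have h2 : ∃ i, 2 * i < q * a ∧ ((u.val = rfgf p r q i ∧ v.val = rfgg p r q a i) ∨
          (v.val = rfgf p r q i ∧ u.val = rfgg p r q a i)) := by
        by_contra hcon
        push Not at hcon
        refine hna ⟨hT, fun i hi => ⟨fun hh => (hcon i hi).1 hh.1 hh.2,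
          fun hh => (hcon i hi).2 hh.1 hh.2⟩⟩
      obtain ⟨i, hi, h3⟩ := h2
      refine ⟨i, mem_range.mpr (by omega), ?_⟩
      rw [hB, mem_filter]
      refine ⟨mem_univ _, hs.2, ?_⟩
      rcases h3 with h3 | h3
      · exact ⟨u, hu, v, hv, h3.1, h3.2⟩
      · exact ⟨v, hv, u, hu, h3.1, h3.2⟩
  refine (card_le_card hsub).trans ((card_union_le _ _).trans ?_)
  exact Nat.add_le_add_left (card_biUnion_le.trans (sum_le_sum hBc)) _

theorem rfgw_aux (hEST : ESTStmt) (hTCT : TCTStmt) (p r a : ℕ) (hP : PrW p r) (N : ℕ)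
    (hN : N = (p + 4) * a + (r + 1)) : ∃ R : SimpleGraph (Fin N),
    (∀ v, (R.neighborSet v).ncard ≤ (p + 3) * a + r) ∧ R.CliqueFree (p + 5) ∧
    kx p r a ≤ ({s : Finset (Fin N) | R.IsNClique 3 s}.ncard : ℝ) := by
  subst hN
  obtain ⟨q, hq⟩ : ∃ q, r + q = p + 3 := ⟨p + 3 - r, by have := hP.rp; omega⟩
  have hr := hP.rp
  have hq2 : 2 ≤ q := by omega
  refine ⟨rfgR p r q a, w_rfg_deg hq hq2 hr, ?_, ?_⟩
  · have h1 := SimpleGraph.turanGraph_cliqueFree (n := (p + 4) * a + (r + 1)) (r := p + 4)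
      (by omega)
    exact h1.anti (rfgR_le p r q a)
  · have h1 := hTCT p 3 a (r + 1) (by omega)
    have h2 := w_rfg_count (a := a) hq hq2 hr
    rw [show (p + 2) * a + (r + 1) = ((p + 2) * a + r) + 1 by ring, rfg_sum] at h2
    have h3 := h1.trans h2
    have hpr : p + 3 - r = q := by omega
    unfold kx Xz
    rw [hpr]
    by_cases he : Even (q * a)
    · rw [if_pos he] at h3 ⊢
      have h4 : ((TT (p + 4) 3 a (r + 1) : ℕ) : ℝ) ≤ (({s : Finset (Fin ((p + 4) * a + (r + 1))) |
        (rfgR p r q a).IsNClique 3 s}.ncard + q * a / 2 * ((p + 2) * a + r + 1) : ℕ) : ℝ) := by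
        exact_mod_cast h3
      obtain ⟨K, hK⟩ := he
      have hK2 : q * a / 2 = K := by omega
      rw [hK2] at h4
      push_cast at h4
      have h5 : (q : ℝ) * a = K + K := by exact_mod_cast hK
      rw [h5]
      nlinarith
    · rw [if_neg he] at h3 ⊢
      have h4 : ((TT (p + 4) 3 a (r + 1) : ℕ) : ℝ) ≤ (({s : Finset (Fin ((p + 4) * a + (r + 1))) |
        (rfgR p r q a).IsNClique 3 s}.ncard + (q * a / 2 * ((p + 2) * a + r + 1) +
          ((p + 2) * a + r)) : ℕ) : ℝ) := by
        exact_mod_cast h3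
      rw [Nat.not_even_iff_odd] at he
      obtain ⟨K, hK⟩ := he
      have hK2 : q * a / 2 = K := by omega
      rw [hK2] at h4
      push_cast at h4
      have h5 : (q : ℝ) * a = 2 * K + 1 := by exact_mod_cast hK
      rw [h5]
      nlinarith

theorem RFGW_thm (hEST : ESTStmt) (hTCT : TCTStmt) : RFGWStmt := by
  intro p r a hP _
  exact rfgw_aux hEST hTCT p r a hP _ (by ring)

end Pool.ME7
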